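import Pool.Agent.U823.KT.NonSub

/-!
# A transcendental kite lies in no finite transitive set: the geometric part
-/

set_option autoImplicit false

namespace Pool.Agent.U823.KT

section
variable {V : Type} [NormedAddCommGroup V] [InnerProductSpace ℝ V]

/-- the relation between the squared distances of a point to the four vertices of a kite -/
lemma four (p₁ p₂ p₃ p₄ y : V) (a : ℝ) (h12 : dist p₁ p₂ ^ 2 = 4)
    (h13 : dist p₁ p₃ ^ 2 = 2 * (1 - a)) (h14 : dist p₁ p₄ ^ 2 = 2 * (1 - a))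
    (h23 : dist p₂ p₃ ^ 2 = 2 * (1 + a)) (h24 : dist p₂ p₄ ^ 2 = 2 * (1 + a))
    (h34 : dist p₃ p₄ ^ 2 = 4 * (1 - a ^ 2)) :
    dist y p₃ ^ 2 + dist y p₄ ^ 2 = (1 + a) * dist y p₁ ^ 2 + (1 - a) * dist y p₂ ^ 2 := by
  set e₂ := p₂ - p₁ with he2
  set e₃ := p₃ - p₁ with he3
  set e₄ := p₄ - p₁ with he4
  set u := y - p₁ with hu
  have n2 : ‖e₂‖ ^ 2 = 4 := by rw [he2, ← dist_eq_norm, dist_comm, h12]
  have n3 : ‖e₃‖ ^ 2 = 2 * (1 - a) := by rw [he3, ← dist_eq_norm, dist_comm, h13]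
  have n4 : ‖e₄‖ ^ 2 = 2 * (1 - a) := by rw [he4, ← dist_eq_norm, dist_comm, h14]
  have e23 : e₂ - e₃ = p₂ - p₃ := by rw [he2, he3]; abel
  have e24 : e₂ - e₄ = p₂ - p₄ := by rw [he2, he4]; abel
  have e34 : e₃ - e₄ = p₃ - p₄ := by rw [he3, he4]; abel
  have i23 : inner ℝ e₂ e₃ = 2 * (1 - a) := by
    have h1 := norm_sub_sq_real e₂ e₃
    rw [e23, ← dist_eq_norm, h23, n2, n3] at h1
    linarith
  have i24 : inner ℝ e₂ e₄ = 2 * (1 - a) := by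
    have h1 := norm_sub_sq_real e₂ e₄
    rw [e24, ← dist_eq_norm, h24, n2, n4] at h1
    linarith
  have i34 : inner ℝ e₃ e₄ = -2 * a * (1 - a) := by
    have h1 := norm_sub_sq_real e₃ e₄
    rw [e34, ← dist_eq_norm, h34, n3, n4] at h1
    linarith
  have hv : e₃ + e₄ - (1 - a) • e₂ = 0 := by
    rw [← norm_eq_zero, ← sq_eq_zero_iff, norm_sub_sq_real, norm_add_sq_real, inner_add_left,
      inner_smul_right, inner_smul_right, norm_smul, mul_pow, n3, n4, n2,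
      real_inner_comm e₂ e₃, real_inner_comm e₂ e₄, i23, i24, i34, Real.norm_eq_abs, sq_abs]
    ring
  have hyu : inner ℝ u e₃ + inner ℝ u e₄ = (1 - a) * inner ℝ u e₂ := by
    have h1 : inner ℝ u (e₃ + e₄ - (1 - a) • e₂) = 0 := by rw [hv, inner_zero_right]
    rw [inner_sub_right, inner_add_right, inner_smul_right] at h1
    linarith
  have d1 : dist y p₁ ^ 2 = ‖u‖ ^ 2 := by rw [dist_eq_norm]
  have d2 : dist y p₂ ^ 2 = ‖u‖ ^ 2 - 2 * inner ℝ u e₂ + 4 := by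
    rw [dist_eq_norm, show y - p₂ = u - e₂ by rw [hu, he2]; abel, norm_sub_sq_real, n2]
  have d3 : dist y p₃ ^ 2 = ‖u‖ ^ 2 - 2 * inner ℝ u e₃ + 2 * (1 - a) := by
    rw [dist_eq_norm, show y - p₃ = u - e₃ by rw [hu, he3]; abel, norm_sub_sq_real, n3]
  have d4 : dist y p₄ ^ 2 = ‖u‖ ^ 2 - 2 * inner ℝ u e₄ + 2 * (1 - a) := by
    rw [dist_eq_norm, show y - p₄ = u - e₄ by rw [hu, he4]; abel, norm_sub_sq_real, n4]
  rw [d1, d2, d3, d4]
  linear_combination -2 * hyu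

/-- the group of the permutations of a set of points which preserve the distances -/
def isoGroup (Z : Set V) : Subgroup (Equiv.Perm ↥Z) where
  carrier := {σ | ∀ x y : ↥Z, dist ((σ x : ↥Z) : V) (σ y : ↥Z) = dist (x : V) y}
  mul_mem' := by
    intro σ τ hσ hτ x y
    rw [Equiv.Perm.mul_apply, Equiv.Perm.mul_apply, hσ, hτ]
  one_mem' := by
    intro x y
    rfl
  inv_mem' := by
    intro σ hσ x y
    have h1 := hσ (Equiv.symm σ x) (Equiv.symm σ y)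
    rw [Equiv.apply_symm_apply, Equiv.apply_symm_apply] at h1
    exact h1.symm

/-- no four points of a finite transitive set are the vertices of a kite with a transcendental
parameter -/
theorem no_kite {Z : Set V} (hZ : Z.Finite)
    (htr : ∀ x ∈ Z, ∀ y ∈ Z, ∃ g : V ≃ᵢ V, g '' Z = Z ∧ g x = y) {a : ℝ}
    (ha : Transcendental ℚ a) {p₁ p₂ p₃ p₄ : V} (h1 : p₁ ∈ Z) (h2 : p₂ ∈ Z) (h3 : p₃ ∈ Z)
    (h4 : p₄ ∈ Z) (h12 : dist p₁ p₂ ^ 2 = 4)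
    (h13 : dist p₁ p₃ ^ 2 = 2 * (1 - a)) (h14 : dist p₁ p₄ ^ 2 = 2 * (1 - a))
    (h23 : dist p₂ p₃ ^ 2 = 2 * (1 + a)) (h24 : dist p₂ p₄ ^ 2 = 2 * (1 + a))
    (h34 : dist p₃ p₄ ^ 2 = 4 * (1 - a ^ 2)) : False := by
  classical
  have : Fintype ↥Z := hZ.fintype
  have : Fintype (isoGroup Z) := Fintype.ofFinite _
  have hg : ∀ y : V, y ∈ Z → ∃ g : isoGroup Z, ((g : Equiv.Perm ↥Z) ⟨p₁, h1⟩ : V) = y := by
    intro y hy
    obtain ⟨g, hgZ, hgy⟩ := htr p₁ h1 y hy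
    have hmem : ∀ z : ↥Z, g z ∈ Z := by
      intro z
      have h5 : g z ∈ g '' Z := Set.mem_image_of_mem g z.2
      rwa [hgZ] at h5
    let σ : Equiv.Perm ↥Z := Equiv.ofBijective (fun z => ⟨g z, hmem z⟩) (by
      refine Finite.injective_iff_bijective.mp ?_
      intro z w h
      exact Subtype.ext (g.injective (congrArg Subtype.val h)))
    refine ⟨⟨σ, fun x y => ?_⟩, hgy⟩
    exact g.isometry.dist_eq _ _
  obtain ⟨g₂, hg2⟩ := hg p₂ h2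
  obtain ⟨g₃, hg3⟩ := hg p₃ h3
  obtain ⟨g₄, hg4⟩ := hg p₄ h4
  let φ : isoGroup Z → ℝ := fun g => dist ((g : Equiv.Perm ↥Z) ⟨p₁, h1⟩ : V) p₁ ^ 2
  have hφ : ∀ (g k : isoGroup Z) (p : V), ((g : Equiv.Perm ↥Z) ⟨p₁, h1⟩ : V) = p →
      φ (g⁻¹ * k) = dist ((k : Equiv.Perm ↥Z) ⟨p₁, h1⟩ : V) p ^ 2 := by
    intro g k p hp
    have e1 := g.2 ((g⁻¹ * k : isoGroup Z).1 ⟨p₁, h1⟩) ⟨p₁, h1⟩
    simp only [φ]
    rw [← e1, hp]
    congr 3
    change (g : Equiv.Perm ↥Z) (((g⁻¹ * k : isoGroup Z) : Equiv.Perm ↥Z) ⟨p₁, h1⟩) = _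
    rw [Subgroup.coe_mul, Subgroup.coe_inv, ← Equiv.Perm.mul_apply, mul_inv_cancel_left]
  have key := core φ 1 g₂ g₃ g₄ ha (fun k => by
    rw [hφ 1 k p₁ rfl, hφ g₂ k p₂ hg2, hφ g₃ k p₃ hg3, hφ g₄ k p₄ hg4]
    exact four p₁ p₂ p₃ p₄ _ a h12 h13 h14 h23 h24 h34) 1
  rw [hφ 1 1 p₁ rfl, hφ g₂ 1 p₂ hg2] at key
  change dist p₁ p₁ ^ 2 = dist p₁ p₂ ^ 2 at key
  rw [dist_self, h12] at key
  norm_num at key

end

end Pool.Agent.U823.KT
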