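import Mathlib

/-!
# A transcendental kite lies in no finite transitive set: the algebraic part
-/

set_option autoImplicit false

namespace Pool.Agent.U823.KT

open Polynomial

/-- an element of the real group algebra of a finite group annihilated by
`g₃ + g₄ - (1 + x) g₁ - (1 - x) g₂`, where `x > 1`, satisfies `g₁ v = g₂ v` -/
lemma rigid {G : Type} [Group G] [Fintype G] (v : G → ℝ) (g₁ g₂ g₃ g₄ : G) (x : ℝ) (hx : 1 < x)
    (h : ∀ k : G, v (g₃⁻¹ * k) + v (g₄⁻¹ * k) = (1 + x) * v (g₁⁻¹ * k) + (1 - x) * v (g₂⁻¹ * k))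
    (k : G) : v (g₁⁻¹ * k) = v (g₂⁻¹ * k) := by
  have hs : ∀ g : G, ∑ k, v (g⁻¹ * k) ^ 2 = ∑ k, v k ^ 2 := fun g =>
    Equiv.sum_comp (Equiv.mulLeft g⁻¹) fun k => v k ^ 2
  have h1 : ∀ k : G, (x ^ 2 - 1) * (v (g₁⁻¹ * k) - v (g₂⁻¹ * k)) ^ 2 ≤
      2 * v (g₃⁻¹ * k) ^ 2 + 2 * v (g₄⁻¹ * k) ^ 2 -
        (2 + 2 * x) * v (g₁⁻¹ * k) ^ 2 - (2 - 2 * x) * v (g₂⁻¹ * k) ^ 2 := by
    intro k
    have h2 := h k
    have h3 : (v (g₃⁻¹ * k) + v (g₄⁻¹ * k)) ^ 2 =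
        ((1 + x) * v (g₁⁻¹ * k) + (1 - x) * v (g₂⁻¹ * k)) ^ 2 := by rw [h2]
    nlinarith [sq_nonneg (v (g₃⁻¹ * k) - v (g₄⁻¹ * k))]
  have h2 : ∑ k, (x ^ 2 - 1) * (v (g₁⁻¹ * k) - v (g₂⁻¹ * k)) ^ 2 ≤ 0 := by
    refine (Finset.sum_le_sum fun k _ => h1 k).trans (le_of_eq ?_)
    rw [Finset.sum_sub_distrib, Finset.sum_sub_distrib, Finset.sum_add_distrib,
      ← Finset.mul_sum, ← Finset.mul_sum, ← Finset.mul_sum, ← Finset.mul_sum, hs, hs, hs, hs]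
    ring
  have hx2 : 0 < x ^ 2 - 1 := by nlinarith
  have h3 : ∀ k ∈ Finset.univ, (x ^ 2 - 1) * (v (g₁⁻¹ * k) - v (g₂⁻¹ * k)) ^ 2 = 0 := by
    rw [← Finset.sum_eq_zero_iff_of_nonneg fun k _ => by positivity]
    exact le_antisymm h2 (Finset.sum_nonneg fun k _ => by positivity)
  have h4 := h3 k (Finset.mem_univ k)
  have h5 : (v (g₁⁻¹ * k) - v (g₂⁻¹ * k)) ^ 2 = 0 :=
    (mul_eq_zero.mp h4).resolve_left hx2.ne'
  exact sub_eq_zero.mp (pow_eq_zero_iff (two_ne_zero) |>.mp h5)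

/-- coordinates: for a transcendental number `a`, finitely many real numbers and one of them which is
not zero, there is a map to the rational polynomials which carries multiplication by `a` to
multiplication by the variable -/
lemma coords {a : ℝ} (ha : Transcendental ℚ a) {ι : Type} [Finite ι] (w : ι → ℝ) (u : ℝ)
    (hu : u ≠ 0) (huw : u ∈ AddSubgroup.closure (Set.range w)) :
    ∃ (S : AddSubgroup ℝ) (l : S →+ ℚ[X]), (∀ i, w i ∈ S) ∧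
      (∀ y : S, ∃ h : a * (y : ℝ) ∈ S, l ⟨a * y, h⟩ = X * l y) ∧
      ∃ h : u ∈ S, l ⟨u, h⟩ ≠ 0 := by
  letI : Algebra ℚ[X] ℝ := (Polynomial.aeval a).toRingHom.toAlgebra
  have hmap : ∀ p : ℚ[X], algebraMap ℚ[X] ℝ p = Polynomial.aeval a p := fun p => rfl
  have hinj : Function.Injective (algebraMap ℚ[X] ℝ) :=
    transcendental_iff_injective.mp ha
  haveI : Module.IsTorsionFree ℚ[X] ℝ := by
    exact Module.isTorsionFree_iff_algebraMap_injective.mpr hinj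
  let N : Submodule ℚ[X] ℝ := Submodule.span ℚ[X] (Set.range w)
  haveI : Module.Finite ℚ[X] N := Module.Finite.span_of_finite ℚ[X] (Set.finite_range w)
  haveI : Module.Free ℚ[X] N := inferInstance
  have hw : ∀ i, w i ∈ N := fun i => Submodule.subset_span ⟨i, rfl⟩
  have huN : u ∈ N := by
    have h1 : AddSubgroup.closure (Set.range w) ≤ N.toAddSubgroup := by
      rw [AddSubgroup.closure_le]
      rintro _ ⟨i, rfl⟩
      exact hw i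
    exact h1 huw
  let bs := Module.Free.chooseBasis ℚ[X] N
  have hne : bs.repr ⟨u, huN⟩ ≠ 0 := by
    intro h
    have h1 : (⟨u, huN⟩ : N) = 0 := bs.repr.map_eq_zero_iff.mp h
    exact hu (congrArg Subtype.val h1)
  obtain ⟨j, hj⟩ := Finsupp.ne_iff.mp hne
  refine ⟨N.toAddSubgroup, ((bs.coord j).toAddMonoidHom : N →+ ℚ[X]), hw, fun y => ?_, huN, hj⟩
  have hXy : (X : ℚ[X]) • (y : ℝ) = a * y := by
    rw [Algebra.smul_def, hmap, Polynomial.aeval_X]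
  have hmem : a * (y : ℝ) ∈ N := by
    rw [← hXy]
    exact N.smul_mem _ y.2
  refine ⟨hmem, ?_⟩
  have h1 : (⟨a * y, hmem⟩ : N) = (X : ℚ[X]) • (⟨y, y.2⟩ : N) := Subtype.ext hXy.symm
  change bs.coord j (⟨a * y, hmem⟩ : N) = X * bs.coord j ⟨y, y.2⟩
  rw [h1, map_smul, smul_eq_mul]

/-- the algebraic core -/
theorem core {G : Type} [Group G] [Fintype G] (φ : G → ℝ) (g₁ g₂ g₃ g₄ : G) {a : ℝ}
    (ha : Transcendental ℚ a)
    (h : ∀ k : G, φ (g₃⁻¹ * k) + φ (g₄⁻¹ * k) = (1 + a) * φ (g₁⁻¹ * k) + (1 - a) * φ (g₂⁻¹ * k))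
    (k : G) : φ (g₁⁻¹ * k) = φ (g₂⁻¹ * k) := by
  by_contra hne
  obtain ⟨S, l, hφ, hX, hu, hlu⟩ := coords ha φ (φ (g₁⁻¹ * k) - φ (g₂⁻¹ * k)) (sub_ne_zero.mpr hne)
    (AddSubgroup.sub_mem _ (AddSubgroup.subset_closure ⟨_, rfl⟩)
      (AddSubgroup.subset_closure ⟨_, rfl⟩))
  let p : G → ℚ[X] := fun g => l ⟨φ g, hφ g⟩
  have hrel : ∀ k : G, p (g₃⁻¹ * k) + p (g₄⁻¹ * k) =
      (1 + X) * p (g₁⁻¹ * k) + (1 - X) * p (g₂⁻¹ * k) := by
    intro k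
    obtain ⟨m1, e1⟩ := hX ⟨_, hφ (g₁⁻¹ * k)⟩
    obtain ⟨m2, e2⟩ := hX ⟨_, hφ (g₂⁻¹ * k)⟩
    have h1 : (⟨_, hφ (g₃⁻¹ * k)⟩ : S) + ⟨_, hφ (g₄⁻¹ * k)⟩ =
        ⟨_, hφ (g₁⁻¹ * k)⟩ + ⟨_, m1⟩ + (⟨_, hφ (g₂⁻¹ * k)⟩ - ⟨_, m2⟩) := by
      apply Subtype.ext
      simp only [AddSubgroup.coe_add, AddSubgroup.coe_sub]
      rw [h k]
      ring
    have h2 := congrArg l h1
    rw [map_add, map_add, map_add, map_sub, e1, e2] at h2
    change p _ + p _ = p _ + X * p _ + (p _ - X * p _) at h2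
    rw [h2]
    ring
  have hval : ∀ x : ℝ, 1 < x → Polynomial.aeval x (p (g₁⁻¹ * k) - p (g₂⁻¹ * k)) = 0 := by
    intro x hx
    have h1 := rigid (fun g => Polynomial.aeval x (p g)) g₁ g₂ g₃ g₄ x hx (fun k => by
      have h2 := congrArg (Polynomial.aeval x) (hrel k)
      simpa using h2) k
    rw [map_sub]
    exact sub_eq_zero.mpr h1
  have hzero : (p (g₁⁻¹ * k) - p (g₂⁻¹ * k)).map (algebraMap ℚ ℝ) = 0 := by
    refine Polynomial.eq_zero_of_infinite_isRoot _ ?_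
    refine Set.Infinite.mono (s := Set.Ioi (1 : ℝ)) ?_ (Set.Ioi_infinite 1)
    intro x hx
    rw [Set.mem_setOf_eq, Polynomial.IsRoot.def, Polynomial.eval_map_algebraMap]
    exact hval x hx
  have hz : p (g₁⁻¹ * k) - p (g₂⁻¹ * k) = 0 :=
    (Polynomial.map_eq_zero _).mp hzero
  apply hlu
  have h1 : (⟨φ (g₁⁻¹ * k) - φ (g₂⁻¹ * k), hu⟩ : S) = ⟨_, hφ (g₁⁻¹ * k)⟩ - ⟨_, hφ (g₂⁻¹ * k)⟩ :=
    Subtype.ext rfl
  rw [h1, map_sub]
  exact hz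

end Pool.Agent.U823.KT
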